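import Mathlib
import Pool.Agent.Lib.MP_14ee70_nt.TY.Defs

/-!
# Project TY, file M/Omega: few integers have many prime factors

Proof.  Write `m = s^2 q` with `q` squarefree (`Nat.sq_mul_squarefree`).  `Ω(m) = 2 Ω(s) + Ω(q)`, `Ω(s) ≤ log_2 s`,
`2^Ω(q) = d(q) ≤ d(m)` (`q` squarefree: `ω(q) = Ω(q)`, `q ∣ m`).
If `Ω(m) > 60 log Z` then `s > Z^11` or `d(m) > Z^12` (otherwise `Ω(m) ≤ 34 log Z / log 2 ≤ 50 log Z`).
First case: at most `∑_{s > Z^11} z / s^2 ≤ 2 z / Z^11` integers `m ≤ z`.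
Second case: `∑_{m ≤ z} d(m) = ∑_{d ≤ z} ⌊z/d⌋ ≤ z (1 + log z) ≤ z (1 + Z)`, so at most `2 z / Z^11` integers.
-/

namespace MP14ee70.TY

open Finset

theorem omega_two_pow {n : ℕ} (hn : n ≠ 0) : 2 ^ (ArithmeticFunction.cardFactors n) ≤ n := by
  rw [ArithmeticFunction.cardFactors_apply]
  calc 2 ^ n.primeFactorsList.length ≤ n.primeFactorsList.prod :=
        List.pow_card_le_prod _ _ fun p hp => (Nat.prime_of_mem_primeFactorsList hp).two_le
    _ = n := Nat.prod_primeFactorsList hn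

theorem omega_sqf {q : ℕ} (hq : Squarefree q) :
    2 ^ (ArithmeticFunction.cardFactors q) ≤ q.divisors.card := by
  have hq0 : q ≠ 0 := hq.ne_zero
  rw [← (ArithmeticFunction.cardDistinctFactors_eq_cardFactors_iff_squarefree hq0).2 hq,
    Nat.card_divisors hq0, ArithmeticFunction.cardDistinctFactors_apply,
    ← List.card_toFinset]
  change 2 ^ q.primeFactors.card ≤ _
  rw [← Finset.prod_const]
  refine Finset.prod_le_prod' fun p hp => ?_
  have := (Nat.prime_of_mem_primeFactors hp).factorization_pos_of_dvd hq0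
    (Nat.dvd_of_mem_primeFactors hp)
  omega

/-- `Ω(m)` is bounded by the square part and the number of divisors. -/
theorem omega_split {m : ℕ} (hm : m ≠ 0) : ∃ s : ℕ, s ≠ 0 ∧ s ^ 2 ∣ m ∧
    2 ^ (ArithmeticFunction.cardFactors m) ≤ s ^ 2 * m.divisors.card := by
  obtain ⟨q, s, h, hq⟩ := Nat.sq_mul_squarefree m
  have hs : s ≠ 0 := by
    rintro rfl
    simp at h
    exact hm h.symm
  have hq0 : q ≠ 0 := hq.ne_zero
  refine ⟨s, hs, Dvd.intro _ h, ?_⟩
  have h1 : ArithmeticFunction.cardFactors m =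
      2 * ArithmeticFunction.cardFactors s + ArithmeticFunction.cardFactors q := by
    rw [← h, ArithmeticFunction.cardFactors_mul (pow_ne_zero _ hs) hq0,
      ArithmeticFunction.cardFactors_pow]
  rw [h1, pow_add, mul_comm 2, pow_mul]
  refine Nat.mul_le_mul (Nat.pow_le_pow_left (omega_two_pow hs) 2) ((omega_sqf hq).trans ?_)
  exact Finset.card_le_card (Nat.divisors_subset_of_dvd hm (Dvd.intro_left _ h))

open scoped Classical in
/-- Integers with a large square divisor. -/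
theorem omega_sq (N k : ℕ) (hk : k ≠ 0) :
    (((Finset.Ioc 0 N).filter fun m => ∃ s, k < s ∧ s ^ 2 ∣ m).card : ℝ) ≤ N / k := by
  have h1 : ((Finset.Ioc 0 N).filter fun m => ∃ s, k < s ∧ s ^ 2 ∣ m) ⊆
      (Finset.Ioc k N).biUnion fun s => (Finset.Ioc 0 N).filter fun m => s ^ 2 ∣ m := by
    intro m hm
    rw [Finset.mem_filter, Finset.mem_Ioc] at hm
    obtain ⟨⟨h1, h2⟩, s, hs, hsm⟩ := hm
    rw [Finset.mem_biUnion]
    refine ⟨s, Finset.mem_Ioc.2 ⟨hs, ?_⟩, Finset.mem_filter.2 ⟨Finset.mem_Ioc.2 ⟨h1, h2⟩, hsm⟩⟩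
    exact (Nat.le_self_pow two_ne_zero s).trans ((Nat.le_of_dvd h1 hsm).trans h2)
  have h2 : ((((Finset.Ioc 0 N).filter fun m => ∃ s, k < s ∧ s ^ 2 ∣ m).card : ℕ) : ℝ) ≤
      ∑ s ∈ Finset.Ioc k N, (N : ℝ) * ((s : ℝ) ^ 2)⁻¹ := by
    refine (Nat.cast_le.2 ((Finset.card_le_card h1).trans Finset.card_biUnion_le)).trans ?_
    rw [Nat.cast_sum]
    refine Finset.sum_le_sum fun s _ => ?_
    rw [Nat.Ioc_filter_dvd_card_eq_div, ← div_eq_mul_inv]
    have := Nat.cast_div_le (α := ℝ) (m := N) (n := s ^ 2)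
    rwa [Nat.cast_pow] at this
  rcases le_or_gt k N with h | h
  · refine h2.trans ?_
    rw [← Finset.mul_sum, div_eq_mul_inv]
    refine mul_le_mul_of_nonneg_left ((sum_Ioc_inv_sq_le_sub hk h).trans ?_) (Nat.cast_nonneg _)
    have : (0 : ℝ) ≤ (N : ℝ)⁻¹ := by positivity
    linarith
  · have h3 : ∑ s ∈ Finset.Ioc k N, (N : ℝ) * ((s : ℝ) ^ 2)⁻¹ = 0 := by
      rw [Finset.Ioc_eq_empty_of_le h.le, Finset.sum_empty]
    rw [h3] at h2
    exact h2.trans (by positivity)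

theorem omega_div (N : ℕ) :
    ∑ m ∈ Finset.Ioc 0 N, (m.divisors.card : ℝ) ≤ N * (1 + Real.log N) := by
  have h1 : ∀ m ∈ Finset.Ioc 0 N, (m.divisors.card : ℝ) =
      ∑ d ∈ Finset.Ioc 0 N, if d ∣ m then (1 : ℝ) else 0 := by
    intro m hm
    rw [Finset.mem_Ioc] at hm
    rw [Finset.sum_boole]
    congr 2
    ext d
    rw [Nat.mem_divisors, Finset.mem_filter, Finset.mem_Ioc]
    constructor
    · rintro ⟨h1, h2⟩
      exact ⟨⟨Nat.pos_of_dvd_of_pos h1 hm.1, (Nat.le_of_dvd hm.1 h1).trans hm.2⟩, h1⟩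
    · rintro ⟨h1, h2⟩
      exact ⟨h2, hm.1.ne'⟩
  rw [Finset.sum_congr rfl h1, Finset.sum_comm]
  have h2 : ∀ d ∈ Finset.Ioc 0 N, (∑ m ∈ Finset.Ioc 0 N, if d ∣ m then (1 : ℝ) else 0) ≤
      N * (d : ℝ)⁻¹ := by
    intro d _
    rw [Finset.sum_boole, Nat.Ioc_filter_dvd_card_eq_div, ← div_eq_mul_inv]
    exact Nat.cast_div_le
  refine (Finset.sum_le_sum h2).trans ?_
  rw [← Finset.mul_sum]
  refine mul_le_mul_of_nonneg_left ?_ (Nat.cast_nonneg _)
  have h3 := harmonic_le_one_add_log N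
  refine le_trans (le_of_eq ?_) h3
  rw [harmonic_eq_sum_Icc]
  push_cast
  rfl

theorem omega_count : ∃ Z0 : ℝ, ∀ Z z : ℝ, Z0 ≤ Z → 1 ≤ z → Real.log z ≤ Z →
    (((Finset.Icc 1 ⌊z⌋₊).filter
        fun m => 60 * Real.log Z < (ArithmeticFunction.cardFactors m : ℝ)).card : ℝ) ≤ z / Z ^ 10 := by
  classical
  refine ⟨4, fun Z z hZ hz hlz => ?_⟩
  have hZ0 : 0 < Z := by linarith
  set N := ⌊z⌋₊ with hN
  have hN1 : 1 ≤ N := (Nat.one_le_floor_iff _).2 hz
  have hNz : (N : ℝ) ≤ z := Nat.floor_le (by linarith)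
  set k := ⌊Z ^ 11⌋₊ with hk
  have hZ11 : (1 : ℝ) ≤ Z ^ 11 := one_le_pow₀ (by linarith)
  have hk0 : k ≠ 0 := by
    have := (Nat.one_le_floor_iff _).2 hZ11
    omega
  have hkZ : Z ^ 11 / 2 ≤ k := by
    have h1 := Nat.lt_floor_add_one (Z ^ 11)
    rw [← hk] at h1
    have h2 : (1 : ℝ) ≤ k := by exact_mod_cast Nat.one_le_iff_ne_zero.2 hk0
    linarith
  have hsub : ((Finset.Icc 1 N).filter
      fun m => 60 * Real.log Z < (ArithmeticFunction.cardFactors m : ℝ)) ⊆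
      ((Finset.Ioc 0 N).filter fun m => ∃ s, k < s ∧ s ^ 2 ∣ m) ∪
      ((Finset.Ioc 0 N).filter fun m => Z ^ 12 < (m.divisors.card : ℝ)) := by
    intro m hm
    rw [Finset.mem_filter, Finset.mem_Icc] at hm
    obtain ⟨⟨h1, h2⟩, h3⟩ := hm
    obtain ⟨s, hs, hsm, hle⟩ := omega_split (m := m) (by omega)
    rw [Finset.mem_union, Finset.mem_filter, Finset.mem_filter, Finset.mem_Ioc]
    by_cases hks : k < s
    · exact Or.inl ⟨⟨by omega, h2⟩, s, hks, hsm⟩
    · refine Or.inr ⟨⟨by omega, h2⟩, ?_⟩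
      by_contra hcon
      push Not at hks hcon
      have h4 : (s : ℝ) ≤ Z ^ 11 := (Nat.cast_le.2 hks).trans (Nat.floor_le (by positivity))
      have h5 : (2 : ℝ) ^ (ArithmeticFunction.cardFactors m) ≤ Z ^ 34 := by
        have h6 : ((2 ^ (ArithmeticFunction.cardFactors m) : ℕ) : ℝ) ≤
            ((s ^ 2 * m.divisors.card : ℕ) : ℝ) := Nat.cast_le.2 hle
        push_cast at h6
        calc (2 : ℝ) ^ (ArithmeticFunction.cardFactors m) ≤ s ^ 2 * m.divisors.card := h6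
          _ ≤ (Z ^ 11) ^ 2 * Z ^ 12 := by gcongr
          _ = Z ^ 34 := by ring
      have h7 := Real.log_le_log (by positivity) h5
      rw [Real.log_pow, Real.log_pow] at h7
      have h8 := Real.log_two_gt_d9
      have h9 : 0 < Real.log Z := Real.log_pos (by linarith)
      push_cast at h7
      nlinarith
  have hA := omega_sq N k hk0
  have hB : ((((Finset.Ioc 0 N).filter fun m => Z ^ 12 < (m.divisors.card : ℝ)).card : ℕ) : ℝ) *
      Z ^ 12 ≤ z * (2 * Z) := by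
    have h1 := omega_div N
    have h2 : ((((Finset.Ioc 0 N).filter fun m => Z ^ 12 < (m.divisors.card : ℝ)).card : ℕ) : ℝ) *
        Z ^ 12 ≤ ∑ m ∈ Finset.Ioc 0 N, (m.divisors.card : ℝ) := by
      refine le_trans ?_ (Finset.sum_le_sum_of_subset_of_nonneg (Finset.filter_subset
        (fun m => Z ^ 12 < (m.divisors.card : ℝ)) _) fun _ _ _ => Nat.cast_nonneg _)
      rw [← nsmul_eq_mul]
      exact Finset.card_nsmul_le_sum _ _ _ fun m hm => (Finset.mem_filter.1 hm).2.le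
    have h3 : Real.log N ≤ Z := (Real.log_le_log (by exact_mod_cast hN1) hNz).trans hlz
    refine h2.trans (h1.trans ?_)
    have h4 : (0 : ℝ) ≤ 1 + Real.log N := by
      have := Real.log_nonneg (show (1 : ℝ) ≤ N by exact_mod_cast hN1)
      linarith
    exact mul_le_mul hNz (by linarith) h4 (by linarith)
  have h10 : (((Finset.Icc 1 N).filter
      fun m => 60 * Real.log Z < (ArithmeticFunction.cardFactors m : ℝ)).card : ℝ) ≤
      (((Finset.Ioc 0 N).filter fun m => ∃ s, k < s ∧ s ^ 2 ∣ m).card : ℝ) +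
      ((((Finset.Ioc 0 N).filter fun m => Z ^ 12 < (m.divisors.card : ℝ)).card : ℕ) : ℝ) := by
    exact_mod_cast (Finset.card_le_card hsub).trans (Finset.card_union_le _ _)
  have hk0' : (0 : ℝ) < k := by exact_mod_cast Nat.pos_of_ne_zero hk0
  have h11 : (N : ℝ) / k ≤ z * 2 / Z ^ 11 := by
    rw [div_le_div_iff₀ hk0' (by positivity)]
    nlinarith [mul_le_mul hNz hkZ (by positivity) (by linarith : (0 : ℝ) ≤ z)]
  have h12 : ((((Finset.Ioc 0 N).filter fun m => Z ^ 12 < (m.divisors.card : ℝ)).card : ℕ) : ℝ) ≤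
      z * 2 / Z ^ 11 := by
    rw [le_div_iff₀ (by positivity)]
    have h13 : ((((Finset.Ioc 0 N).filter fun m => Z ^ 12 < (m.divisors.card : ℝ)).card : ℕ) : ℝ) *
        Z ^ 11 * Z ≤ z * 2 * Z := by
      calc _ = _ := by ring
        _ ≤ _ := hB
        _ = _ := by ring
    exact le_of_mul_le_mul_right h13 hZ0
  refine (h10.trans (add_le_add (hA.trans h11) h12)).trans ?_
  rw [← add_div, div_le_div_iff₀ (by positivity) (by positivity)]
  have h14 : z * Z ^ 11 = z * Z * Z ^ 10 := by ring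
  rw [h14]
  refine mul_le_mul_of_nonneg_right ?_ (by positivity)
  nlinarith

end MP14ee70.TY
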