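import Mathlib
import Pool.Agent.Lib.MP_14ee70_nt.TY.Defs

/-!
# Project TY, file M/Div: the law of a product of random elements of `M`

`ℕ` is here the multiplicative monoid, `Law ℕ` a commutative monoid under (law of the product of
independent elements) (file Law).
`zeta_pow_le`: `(ζ^l)(n)` is the number of factorisations of `n` into `l` ordered factors.  Proof by induction on `n`
(`Nat.recOnMul` / multiplicativity, at prime powers `binom(a+l-1, l-1) ≤ l^a`), or: `ζ^l` satisfies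
`(ζ^l)(p n) ≤ l (ζ^l)(n)` (by induction on `l`: `(ζ^(l+1))(pn) = ∑_{d ∣ pn} (ζ^l)(d)`, every divisor `d` of `pn` is a divisor of
`n` or `p` times a divisor of `n`: `≤ (ζ^(l+1))(n) + l (ζ^(l+1))(n)`).
`pm_pow_le_zeta`: induction on `l`: `pm (p * q) n = p.E (fun x => q.pm-mass of {z : x z = n})`, so
`((unif M)^(l+1)).pm n ≤ (1/|M|) ∑_{m ∈ M, m ∣ n} ((unif M)^l).pm (n/m)` (`n ≥ 1`).
`pm_wt_mul_le`: the same with weights: `P(m_0 m_1 ⋯ m_l = n) = ∑ over the factorisations of 1/(m_0 Z0) |M|^(-l)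
≤ 3^l / (n Z0)` for each factorisation as `|M| ≥ m_i / 3`; the number of the factorisations is
`≤ (ζ^(l+1))(n) ≤ (l+1)^Ω(n)`, `Ω(n) ≤ (l+1) K`.  (Induction on `l` for `pm n ≤ 3^l (ζ^(l+1))(n) / (n Z0)`.)
-/

namespace MP14ee70.TY

open Finset

theorem zeta_succ (l n : ℕ) : (ArithmeticFunction.zeta ^ (l + 1)) n =
    ∑ d ∈ n.divisors, (ArithmeticFunction.zeta ^ l) d := by
  rw [pow_succ, ArithmeticFunction.mul_zeta_apply]

theorem zeta_prime_mul (l p n : ℕ) (hp : p.Prime) (hn : n ≠ 0) :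
    (ArithmeticFunction.zeta ^ l) (p * n) ≤ l * (ArithmeticFunction.zeta ^ l) n := by
  induction l generalizing n with
  | zero =>
    rw [pow_zero, ArithmeticFunction.one_apply, if_neg]
    · exact Nat.zero_le _
    · intro h
      exact hp.one_lt.ne' (Nat.eq_one_of_mul_eq_one_right h)
  | succ l ih =>
    rw [zeta_succ, zeta_succ]
    have hsub : (p * n).divisors ⊆ n.divisors ∪ n.divisors.image (fun d => p * d) := by
      intro d hd
      rw [Nat.mem_divisors] at hd
      rw [Finset.mem_union, Finset.mem_image]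
      by_cases hpd : p ∣ d
      · obtain ⟨d', rfl⟩ := hpd
        refine Or.inr ⟨d', ?_, rfl⟩
        rw [Nat.mem_divisors]
        exact ⟨Nat.dvd_of_mul_dvd_mul_left hp.pos hd.1, hn⟩
      · left
        rw [Nat.mem_divisors]
        exact ⟨((Nat.Coprime.symm ((Nat.Prime.coprime_iff_not_dvd hp).2 hpd)).dvd_of_dvd_mul_left
          hd.1), hn⟩
    calc ∑ d ∈ (p * n).divisors, (ArithmeticFunction.zeta ^ l) d
        ≤ ∑ d ∈ n.divisors ∪ n.divisors.image (fun d => p * d), (ArithmeticFunction.zeta ^ l) d :=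
          Finset.sum_le_sum_of_subset hsub
      _ ≤ ∑ d ∈ n.divisors, (ArithmeticFunction.zeta ^ l) d +
          ∑ d ∈ n.divisors.image (fun d => p * d), (ArithmeticFunction.zeta ^ l) d := by
          rw [← Finset.sum_union_inter]
          exact Nat.le_add_right _ _
      _ = ∑ d ∈ n.divisors, (ArithmeticFunction.zeta ^ l) d +
          ∑ d ∈ n.divisors, (ArithmeticFunction.zeta ^ l) (p * d) := by
          rw [Finset.sum_image]
          intro x _ y _ hxy
          exact Nat.eq_of_mul_eq_mul_left hp.pos hxy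
      _ ≤ ∑ d ∈ n.divisors, (ArithmeticFunction.zeta ^ l) d +
          ∑ d ∈ n.divisors, l * (ArithmeticFunction.zeta ^ l) d := by
          refine Nat.add_le_add_left (Finset.sum_le_sum fun d hd => ih d ?_) _
          exact (Nat.pos_of_mem_divisors hd).ne'
      _ = (l + 1) * ∑ d ∈ n.divisors, (ArithmeticFunction.zeta ^ l) d := by
          rw [← Finset.mul_sum]
          ring

theorem zeta_pow_le (l n : ℕ) (hn : n ≠ 0) :
    (ArithmeticFunction.zeta ^ l) n ≤ l ^ (ArithmeticFunction.cardFactors n) := by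
  induction n using induction_on_primes with
  | zero => exact absurd rfl hn
  | one =>
    rw [ArithmeticFunction.cardFactors_one, pow_zero]
    clear hn
    induction l with
    | zero => rw [pow_zero, ArithmeticFunction.one_apply, if_pos rfl]
    | succ l ih =>
      rw [zeta_succ, Nat.divisors_one, Finset.sum_singleton]
      exact ih
  | prime_mul p a hp ih =>
    have ha : a ≠ 0 := fun h => hn (by rw [h, mul_zero])
    rw [ArithmeticFunction.cardFactors_mul hp.ne_zero ha,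
      ArithmeticFunction.cardFactors_apply_prime hp, pow_add, pow_one]
    exact (zeta_prime_mul l p a hp ha).trans (Nat.mul_le_mul_left l (ih ha))

/-- The point masses of the law of a product with a uniform element of `M`. -/
theorem pm_unif_mul (M : Finset ℕ) (hM : M.Nonempty) (h0 : 0 ∉ M) (q : Law ℕ) (n : ℕ) :
    (Law.unif M hM * q).pm n = (∑ m ∈ M, if m ∣ n then q.pm (n / m) else 0) / M.card := by
  classical
  unfold Law.pm
  rw [Law.mul_E, Law.unif_E]
  congr 1
  refine Finset.sum_congr rfl fun m hm => ?_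
  have hm0 : 0 < m := Nat.pos_of_ne_zero fun h => h0 (h ▸ hm)
  by_cases hmn : m ∣ n
  · rw [if_pos hmn]
    obtain ⟨k, rfl⟩ := hmn
    congr 1
    funext y
    rw [Nat.mul_div_cancel_left k hm0]
    by_cases hy : y = k
    · rw [if_pos hy, if_pos (by rw [hy])]
    · rw [if_neg hy, if_neg fun h => hy (Nat.eq_of_mul_eq_mul_left hm0 h)]
  · rw [if_neg hmn]
    refine Eq.trans (congrArg q.E (funext fun y => ?_)) (q.E_const 0)
    exact if_neg fun h => hmn ⟨y, h.symm⟩

/-- The sum over the elements of `M` which divide `n`. -/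
theorem sum_dvd_le_zeta (M : Finset ℕ) (l n : ℕ) (hn : n ≠ 0) :
    ∑ m ∈ M, (if m ∣ n then ((ArithmeticFunction.zeta ^ l) (n / m) : ℝ) else 0) ≤
      ((ArithmeticFunction.zeta ^ (l + 1)) n : ℝ) := by
  rw [zeta_succ, ← Finset.sum_filter, Nat.cast_sum, ← Nat.sum_div_divisors n
    (fun d => ((ArithmeticFunction.zeta ^ l) d : ℝ))]
  refine Finset.sum_le_sum_of_subset_of_nonneg ?_ fun _ _ _ => Nat.cast_nonneg _
  intro m hm
  rw [Finset.mem_filter] at hm
  rw [Nat.mem_divisors]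
  exact ⟨hm.2, hn⟩

theorem pm_pow_le_zeta (M : Finset ℕ) (hM : M.Nonempty) (h0 : 0 ∉ M) (l n : ℕ) :
    ((Law.unif M hM) ^ l).pm n ≤ ((ArithmeticFunction.zeta ^ l) n : ℝ) / (M.card : ℝ) ^ l := by
  classical
  have hc : (0 : ℝ) < M.card := by exact_mod_cast hM.card_pos
  induction l generalizing n with
  | zero =>
    unfold Law.pm
    rw [pow_zero, Law.one_E, pow_zero, pow_zero, div_one, ArithmeticFunction.one_apply]
    by_cases h : n = 1
    · rw [if_pos h.symm, if_pos h, Nat.cast_one]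
    · rw [if_neg fun h' => h h'.symm, if_neg h, Nat.cast_zero]
  | succ l ih =>
    rw [pow_succ', pm_unif_mul M hM h0]
    have h1 : ∑ m ∈ M, (if m ∣ n then ((Law.unif M hM) ^ l).pm (n / m) else 0) ≤
        (∑ m ∈ M, (if m ∣ n then ((ArithmeticFunction.zeta ^ l) (n / m) : ℝ) else 0)) /
          (M.card : ℝ) ^ l := by
      rw [Finset.sum_div]
      refine Finset.sum_le_sum fun m _ => ?_
      by_cases hmn : m ∣ n
      · rw [if_pos hmn, if_pos hmn]
        exact ih _
      · rw [if_neg hmn, if_neg hmn, zero_div]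
    have h2 : ∑ m ∈ M, (if m ∣ n then ((ArithmeticFunction.zeta ^ l) (n / m) : ℝ) else 0) ≤
      ((ArithmeticFunction.zeta ^ (l + 1)) n : ℝ) := by
      by_cases hn : n = 0
      · subst hn
        refine le_of_eq_of_le (Finset.sum_eq_zero fun m _ => ?_) (Nat.cast_nonneg _)
        rw [if_pos (dvd_zero m), Nat.zero_div, ArithmeticFunction.map_zero, Nat.cast_zero]
      · exact sum_dvd_le_zeta M l n hn
    rw [pow_succ (M.card : ℝ), ← div_div]
    gcongr
    exact h1.trans (by gcongr)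

theorem supp_unif_pow (M : Finset ℕ) (hM : M.Nonempty) (h0 : 0 ∉ M) (K l : ℕ)
    (hK : ∀ m ∈ M, ArithmeticFunction.cardFactors m ≤ K) :
    ((Law.unif M hM) ^ l).Supp (fun x => x ≠ 0 ∧ ArithmeticFunction.cardFactors x ≤ l * K) := by
  classical
  induction l with
  | zero =>
    unfold Law.Supp Law.P
    rw [pow_zero, Law.one_E, if_neg]
    rw [not_not]
    refine ⟨one_ne_zero, ?_⟩
    rw [ArithmeticFunction.cardFactors_one]
    exact Nat.zero_le _
  | succ l ih =>
    rw [pow_succ]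
    have h1 : (Law.unif M hM).Supp (· ∈ M) := Law.supp_wt _ _ _ _
    refine Law.supp_mul ih h1 ?_
    rintro x y ⟨hx, hx'⟩ hy
    have hy0 : y ≠ 0 := fun h => h0 (h ▸ hy)
    refine ⟨mul_ne_zero hx hy0, ?_⟩
    rw [ArithmeticFunction.cardFactors_mul hx hy0]
    have := hK y hy
    nlinarith

/-- Points outside the support have mass zero. -/
theorem pm_eq_zero_of_supp {p : Law ℕ} {A : ℕ → Prop} (h : p.Supp A) {n : ℕ} (hn : ¬ A n) :
    p.pm n = 0 := by
  classical
  unfold Law.pm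
  rw [h.E_congr (g := fun _ => 0), Law.E_const]
  intro x hx
  rw [if_neg]
  rintro rfl
  exact hn hx

theorem pm_pow_le (M : Finset ℕ) (hM : M.Nonempty) (h0 : 0 ∉ M) (K l n : ℕ) (D : ℝ)
    (hK : ∀ m ∈ M, ArithmeticFunction.cardFactors m ≤ K) (hD : (l : ℝ) ^ K ≤ D) :
    ((Law.unif M hM) ^ l).pm n ≤ (D / M.card) ^ l := by
  have hc : (0 : ℝ) < M.card := by exact_mod_cast hM.card_pos
  have hD0 : 0 ≤ D := le_trans (by positivity) hD
  by_cases hA : n ≠ 0 ∧ ArithmeticFunction.cardFactors n ≤ l * K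
  · refine (pm_pow_le_zeta M hM h0 l n).trans ?_
    rw [div_pow]
    gcongr
    have h1 : ((ArithmeticFunction.zeta ^ l) n : ℝ) ≤
        (l : ℝ) ^ (ArithmeticFunction.cardFactors n) := by
      exact_mod_cast zeta_pow_le l n hA.1
    refine h1.trans ?_
    rcases Nat.eq_zero_or_pos l with hl | hl
    · subst hl
      rw [pow_zero]
      have h2 : ArithmeticFunction.cardFactors n = 0 := by
        have := hA.2
        rw [zero_mul] at this
        exact Nat.le_zero.1 this
      rw [h2, pow_zero]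
    · have h2 : (1 : ℝ) ≤ l := by exact_mod_cast hl
      calc (l : ℝ) ^ (ArithmeticFunction.cardFactors n) ≤ (l : ℝ) ^ (l * K) :=
            pow_le_pow_right₀ h2 hA.2
        _ = ((l : ℝ) ^ K) ^ l := by rw [mul_comm, pow_mul]
        _ ≤ D ^ l := by gcongr
  · rw [pm_eq_zero_of_supp (supp_unif_pow M hM h0 K l hK) hA]
    positivity

theorem pm_wt_mul_le_zeta (M M0 : Finset ℕ) (hM : M.Nonempty) (h0 : 0 ∉ M)
    (hM3 : ∀ m ∈ M, (m : ℝ) ≤ 3 * M.card)
    (hw : ∀ m ∈ M0, 0 ≤ 1 / (m : ℝ)) (hs : 0 < ∑ m ∈ M0, 1 / (m : ℝ)) (l n : ℕ) (hn : 0 < n) :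
    (Law.wt M0 (fun m => 1 / (m : ℝ)) hw hs * (Law.unif M hM) ^ l).pm n
      ≤ 3 ^ l * ((ArithmeticFunction.zeta ^ (l + 1)) n : ℝ) / (n * ∑ m ∈ M0, 1 / (m : ℝ)) := by
  classical
  have hc : (0 : ℝ) < M.card := by exact_mod_cast hM.card_pos
  set Z : ℝ := ∑ m ∈ M0, 1 / (m : ℝ) with hZ
  induction l generalizing n with
  | zero =>
    have hn' : (0 : ℝ) < n := by exact_mod_cast hn
    rw [pow_zero, mul_one, pow_zero, one_mul, zero_add, pow_one,
      ArithmeticFunction.zeta_apply_ne hn.ne', Nat.cast_one]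
    unfold Law.pm
    rw [Law.wt_E, ← hZ, ← div_div]
    gcongr
    have h1 : ∑ x ∈ M0, (if x = n then 1 / (n : ℝ) else 0) ≤ 1 / (n : ℝ) := by
      rw [Finset.sum_ite_eq']
      split_ifs
      · exact le_rfl
      · positivity
    refine le_of_eq_of_le (Finset.sum_congr rfl fun x _ => ?_) h1
    by_cases hx : x = n
    · rw [if_pos hx, if_pos hx, hx, mul_one]
    · rw [if_neg hx, if_neg hx, mul_zero]
  | succ l ih =>
    have hn' : (0 : ℝ) < n := by exact_mod_cast hn
    rw [pow_succ, ← mul_assoc, mul_comm _ (Law.unif M hM), pm_unif_mul M hM h0]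
    have h1 : ∀ m ∈ M, (if m ∣ n then (Law.wt M0 (fun m => 1 / (m : ℝ)) hw hs *
        (Law.unif M hM) ^ l).pm (n / m) else 0) / (M.card : ℝ) ≤
        (3 ^ (l + 1) / (n * Z)) *
          (if m ∣ n then ((ArithmeticFunction.zeta ^ (l + 1)) (n / m) : ℝ) else 0) := by
      intro m hm
      by_cases hmn : m ∣ n
      · rw [if_pos hmn, if_pos hmn]
        have hm0 : 0 < m := Nat.pos_of_ne_zero fun h => h0 (h ▸ hm)
        have hm0' : (0 : ℝ) < m := by exact_mod_cast hm0
        have hnm : 0 < n / m := Nat.div_pos (Nat.le_of_dvd hn hmn) hm0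
        have h2 := ih (n / m) hnm
        have h3 : ((n / m : ℕ) : ℝ) = (n : ℝ) / m := Nat.cast_div hmn hm0'.ne'
        rw [h3] at h2
        have h4 : (0 : ℝ) ≤ ((ArithmeticFunction.zeta ^ (l + 1)) (n / m) : ℝ) := Nat.cast_nonneg _
        calc (Law.wt M0 (fun m => 1 / (m : ℝ)) hw hs *
              (Law.unif M hM) ^ l).pm (n / m) / (M.card : ℝ)
            ≤ (3 ^ l * ((ArithmeticFunction.zeta ^ (l + 1)) (n / m) : ℝ) / ((n : ℝ) / m * Z)) /
              (M.card : ℝ) := by gcongr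
          _ = (3 ^ l * ((ArithmeticFunction.zeta ^ (l + 1)) (n / m) : ℝ) / (n * Z)) *
              (m / (M.card : ℝ)) := by
              field_simp
          _ ≤ (3 ^ l * ((ArithmeticFunction.zeta ^ (l + 1)) (n / m) : ℝ) / (n * Z)) * 3 := by
              have h5 : (m : ℝ) / (M.card : ℝ) ≤ 3 := by
                rw [div_le_iff₀ hc]
                exact hM3 m hm
              gcongr
          _ = _ := by
              rw [pow_succ]
              ring
      · rw [if_neg hmn, if_neg hmn, zero_div, mul_zero]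
    rw [Finset.sum_div]
    refine (Finset.sum_le_sum h1).trans ?_
    rw [← Finset.mul_sum]
    have h6 := sum_dvd_le_zeta M (l + 1) n hn.ne'
    calc (3 ^ (l + 1) / (n * Z)) * ∑ m ∈ M,
          (if m ∣ n then ((ArithmeticFunction.zeta ^ (l + 1)) (n / m) : ℝ) else 0)
        ≤ (3 ^ (l + 1) / (n * Z)) * ((ArithmeticFunction.zeta ^ (l + 1 + 1)) n : ℝ) := by
          gcongr
      _ = _ := by ring

theorem pm_wt_mul_le (M M0 : Finset ℕ) (hM : M.Nonempty) (h0 : 0 ∉ M) (h00 : 0 ∉ M0) (K l n : ℕ) (D : ℝ)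
    (hK : ∀ m ∈ M, ArithmeticFunction.cardFactors m ≤ K)
    (hK0 : ∀ m ∈ M0, ArithmeticFunction.cardFactors m ≤ K)
    (hM3 : ∀ m ∈ M, (m : ℝ) ≤ 3 * M.card) (hD : ((l : ℝ) + 1) ^ K ≤ D)
    (hw : ∀ m ∈ M0, 0 ≤ 1 / (m : ℝ)) (hs : 0 < ∑ m ∈ M0, 1 / (m : ℝ)) (hn : 0 < n) :
    (Law.wt M0 (fun m => 1 / (m : ℝ)) hw hs * (Law.unif M hM) ^ l).pm n
      ≤ 3 ^ l * D ^ (l + 1) / (n * ∑ m ∈ M0, 1 / (m : ℝ)) := by
  have hn' : (0 : ℝ) < n := by exact_mod_cast hn
  have hD0 : 0 ≤ D := le_trans (by positivity) hD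
  by_cases hA : n ≠ 0 ∧ ArithmeticFunction.cardFactors n ≤ (l + 1) * K
  · refine (pm_wt_mul_le_zeta M M0 hM h0 hM3 hw hs l n hn).trans ?_
    gcongr
    have h1 : ((ArithmeticFunction.zeta ^ (l + 1)) n : ℝ) ≤
        ((l : ℝ) + 1) ^ (ArithmeticFunction.cardFactors n) := by
      exact_mod_cast zeta_pow_le (l + 1) n hA.1
    refine h1.trans ?_
    have h2 : (1 : ℝ) ≤ (l : ℝ) + 1 := by
      have : (0 : ℝ) ≤ l := Nat.cast_nonneg l
      linarith
    calc ((l : ℝ) + 1) ^ (ArithmeticFunction.cardFactors n) ≤ ((l : ℝ) + 1) ^ ((l + 1) * K) :=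
          pow_le_pow_right₀ h2 hA.2
      _ = (((l : ℝ) + 1) ^ K) ^ (l + 1) := by rw [mul_comm, pow_mul]
      _ ≤ D ^ (l + 1) := by gcongr
  · have h1 : (Law.wt M0 (fun m => 1 / (m : ℝ)) hw hs * (Law.unif M hM) ^ l).Supp
        (fun x => x ≠ 0 ∧ ArithmeticFunction.cardFactors x ≤ (l + 1) * K) := by
      refine Law.supp_mul (Law.supp_wt _ _ _ _) (supp_unif_pow M hM h0 K l hK) ?_
      rintro x y hx ⟨hy, hy'⟩
      have hx0 : x ≠ 0 := fun h => h00 (h ▸ hx)
      refine ⟨mul_ne_zero hx0 hy, ?_⟩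
      rw [ArithmeticFunction.cardFactors_mul hx0 hy]
      have := hK0 x hx
      nlinarith
    rw [pm_eq_zero_of_supp h1 hA]
    positivity

end MP14ee70.TY
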